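import Pool.Agent.X288.TR.COND

set_option autoImplicit false

namespace Pool.Agent.X288.TR

open Pool.Agent.X302.TR

theorem t_COND : S_COND := fun hN hK hH n p a b F hF => t_CONDR hN hK hH n p a b F hF

end Pool.Agent.X288.TR
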