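import Pool.Agent.X302.TR.Stm

/-!
# Project TR, part COND
-/

set_option autoImplicit false
set_option linter.unusedSectionVars false

namespace Pool.Agent.X288.TR

open Filter Topology
open Pool.Agent.X302.TR

variable {n : ℕ}

/-- `Bdd` of `X302.TR.Stm` with a REAL parameter `s` -/
def BddR {p : ℕ} (a : Fin p → Fin n → ℤ) (b : Fin p → ℝ) (F : Cub n) (y d : V n) : Prop :=
  ∃ ε > 0, ∃ M : ℝ, ∀ x : Fin n → ℤ, Pt a b (toV x) →
    (∃ s : ℝ, 0 ≤ s ∧ ‖toV x - (y + s • d)‖ ≤ ε) → M ≤ F.val (toV x)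

/-- no unbounded thin ray -/
def NoRayR {p : ℕ} (a : Fin p → Fin n → ℤ) (b : Fin p → ℝ) (F : Cub n) : Prop :=
  ∀ y d : V n, d ≠ 0 → Pt a b y → Rc a d → BddR a b F y d

/-- `S_COND` with `NoRayR` -/
def S_CONDR : Prop := S_NEAR → S_KRON → S_HULL →
  ∀ (n p : ℕ) (a : Fin p → Fin n → ℤ) (b : Fin p → ℝ) (F : Cub n), NoRayR a b F →
  ∀ e y : V n, e ≠ 0 → Rc a e → y ∈ G e → Cm a b e y →
    0 ≤ F.T e e e ∧ (F.T e e e = 0 → 0 ≤ F.A e y) ∧
      (F.T e e e = 0 → F.A e y = 0 → 0 ≤ F.B e y)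

theorem sum1 (L : V n →ₗ[ℝ] ℝ) (x : V n) :
    L x = ∑ i, x i * L (fun j => if i = j then 1 else 0) := by
  rw [LinearMap.pi_apply_eq_sum_univ L x]
  rfl

theorem sum2 (Q : V n →ₗ[ℝ] V n →ₗ[ℝ] ℝ) (x y : V n) :
    Q x y = ∑ i, x i * Q (fun j => if i = j then 1 else 0) y := by
  conv_lhs => rw [LinearMap.pi_apply_eq_sum_univ Q x]
  rw [LinearMap.sum_apply]
  rfl

theorem sum3 (T : V n →ₗ[ℝ] V n →ₗ[ℝ] V n →ₗ[ℝ] ℝ) (x y z : V n) :
    T x y z = ∑ i, x i * T (fun j => if i = j then 1 else 0) y z := by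
  conv_lhs => rw [LinearMap.pi_apply_eq_sum_univ T x]
  rw [LinearMap.sum_apply, LinearMap.sum_apply]
  rfl

section cont

variable {X : Type*} [TopologicalSpace X]

theorem cont1 (L : V n →ₗ[ℝ] ℝ) {f : X → V n} (hf : Continuous f) :
    Continuous fun x => L (f x) :=
  L.continuous_of_finiteDimensional.comp hf

theorem cont2 (Q : V n →ₗ[ℝ] V n →ₗ[ℝ] ℝ) {f g : X → V n} (hf : Continuous f)
    (hg : Continuous g) : Continuous fun x => Q (f x) (g x) := by
  have : (fun x => Q (f x) (g x)) =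
      fun x => ∑ i, f x i * Q (fun j => if i = j then 1 else 0) (g x) :=
    funext fun x => sum2 Q _ _
  rw [this]
  exact continuous_finsetSum _ fun i _ =>
    ((continuous_apply i).comp hf).mul (cont1 _ hg)

theorem cont3 (T : V n →ₗ[ℝ] V n →ₗ[ℝ] V n →ₗ[ℝ] ℝ) {f g h : X → V n} (hf : Continuous f)
    (hg : Continuous g) (hh : Continuous h) : Continuous fun x => T (f x) (g x) (h x) := by
  have : (fun x => T (f x) (g x) (h x)) =
      fun x => ∑ i, f x i * T (fun j => if i = j then 1 else 0) (g x) (h x) :=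
    funext fun x => sum3 T _ _ _
  rw [this]
  exact continuous_finsetSum _ fun i _ =>
    ((continuous_apply i).comp hf).mul (cont2 _ hg hh)

end cont

theorem cA (F : Cub n) (e : V n) : Continuous fun z => F.A e z := by
  unfold Cub.A
  exact ((cont1 (F.T e e) continuous_id).const_mul 3 |> fun h => h).add continuous_const

theorem cB (F : Cub n) (e : V n) : Continuous fun z => F.B e z := by
  unfold Cub.B
  exact ((continuous_const.mul (cont2 (F.T e) continuous_id continuous_id)).add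
    (continuous_const.mul (cont1 (F.Q e) continuous_id))).add continuous_const

theorem cval (F : Cub n) : Continuous fun z => F.val z := by
  unfold Cub.val
  exact (((cont3 F.T continuous_id continuous_id continuous_id).add
    (cont2 F.Q continuous_id continuous_id)).add (cont1 F.L continuous_id)).add continuous_const

theorem val_eq (F : Cub n) (e z : V n) (s : ℝ) :
    F.val (s • e + z) = s ^ 3 * F.T e e e + s ^ 2 * F.A e z + s * F.B e z + F.val z := by
  unfold Cub.val Cub.A Cub.B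
  simp only [map_add, map_smul, LinearMap.add_apply, LinearMap.smul_apply, smul_eq_mul]
  have h1 : F.T e z e = F.T e e z := F.T2 e z e
  have h2 : F.T z e e = F.T e e z := by rw [F.T1 z e e, F.T2 e z e]
  have h3 : F.T z e z = F.T e z z := F.T1 z e z
  have h4 : F.T z z e = F.T e z z := by rw [F.T2 z z e, F.T1 z e z]
  have h5 : F.Q z e = F.Q e z := F.Q1 z e
  rw [h1, h2, h3, h4, h5]
  ring

theorem dot_add (m : Fin n → ℤ) (u v : V n) : dot m (u + v) = dot m u + dot m v := by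
  unfold dot
  rw [← Finset.sum_add_distrib]
  exact Finset.sum_congr rfl fun j _ => by rw [Pi.add_apply]; ring

theorem dot_smul (m : Fin n → ℤ) (c : ℝ) (u : V n) : dot m (c • u) = c * dot m u := by
  unfold dot
  rw [Finset.mul_sum]
  exact Finset.sum_congr rfl fun j _ => by rw [Pi.smul_apply, smul_eq_mul]; ring

theorem exists_base {p : ℕ} (a : Fin p → Fin n → ℤ) (b : Fin p → ℝ) {e y : V n} (he : Rc a e)
    (hy : Cm a b e y) : ∃ K : ℝ, 0 ≤ K ∧ Pt a b (y + K • e) := by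
  have h : ∀ i, ∃ K : ℝ, ∀ s ≥ K, dot (a i) (y + s • e) ≤ b i := by
    intro i
    rcases eq_or_lt_of_le (he i) with h0 | h0
    · refine ⟨0, fun s _ => ?_⟩
      rw [dot_add, dot_smul, h0, mul_zero, add_zero]
      exact hy i h0
    · refine ⟨(dot (a i) y - b i) / (-dot (a i) e), fun s hs => ?_⟩
      have h1 : 0 < -dot (a i) e := by linarith
      have h2 := (div_le_iff₀ h1).1 hs
      rw [dot_add, dot_smul]
      linarith
  choose K hK using h
  refine ⟨∑ i, |K i|, Finset.sum_nonneg fun i _ => abs_nonneg _, fun i => hK i _ ?_⟩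
  exact (le_abs_self _).trans (Finset.single_le_sum (f := fun i => |K i|)
    (fun i _ => abs_nonneg _) (Finset.mem_univ i))

/-- points near the ray -/
theorem core (hN : S_NEAR) (hK : S_KRON) (hH : S_HULL) {p : ℕ} (a : Fin p → Fin n → ℤ)
    (b : Fin p → ℝ) (F : Cub n) (hF : NoRayR a b F) {e y : V n} (he0 : e ≠ 0) (he : Rc a e)
    (hG : y ∈ G e) (hC : Cm a b e y) : ∃ ε > 0, ∃ M : ℝ, ∀ ε' > 0, ε' ≤ ε → ∀ S : ℝ,
      ∃ s ≥ S, ∃ δ : V n, ‖δ‖ < ε' ∧ δ ∈ H e ∧
        M ≤ s ^ 3 * F.T e e e + s ^ 2 * F.A e (y + δ) + s * F.B e (y + δ) + F.val (y + δ) := by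
  obtain ⟨K, hK0, hP⟩ := exists_base a b he hC
  obtain ⟨ε, hε, M, hM⟩ := hF (y + K • e) e he0 hP he
  refine ⟨ε, hε, M, fun ε' hε' hle S => ?_⟩
  obtain ⟨s, hs, x, hx, hd, hh⟩ := hN hK hH n p a b e y he hG hC ε' hε' (max S K)
  refine ⟨s, (le_max_left _ _).trans hs, toV x - (y + s • e), hd, hh, ?_⟩
  rw [← val_eq]
  have e1 : s • e + (y + (toV x - (y + s • e))) = toV x := by abel
  rw [e1]
  apply hM x hx
  refine ⟨s - K, sub_nonneg.2 ((le_max_right _ _).trans hs), ?_⟩
  have e2 : toV x - (y + K • e + (s - K) • e) = toV x - (y + s • e) := by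
    rw [sub_smul]; abel
  rw [e2]
  exact hd.le.trans hle

theorem bound {φ : V n → ℝ} (hφ : Continuous φ) (y : V n) :
    ∃ C : ℝ, 0 ≤ C ∧ ∀ δ : V n, ‖δ‖ ≤ 1 → φ (y + δ) ≤ C := by
  have hc : Continuous fun δ : V n => φ (y + δ) := hφ.comp (by fun_prop)
  obtain ⟨C, hC⟩ := (isCompact_closedBall (0 : V n) 1).exists_bound_of_continuousOn hc.continuousOn
  refine ⟨max C 0, le_max_right _ _, fun δ hδ => ?_⟩
  have h1 := hC δ (mem_closedBall_zero_iff.2 hδ)
  rw [Real.norm_eq_abs] at h1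
  exact (le_abs_self _).trans (h1.trans (le_max_left _ _))

/-- continuity: negative at `y` implies at most half of it nearby -/
theorem near {φ : V n → ℝ} (hφ : Continuous φ) {y : V n} (hy : φ y < 0) :
    ∃ r > 0, ∀ δ : V n, ‖δ‖ < r → φ (y + δ) ≤ φ y / 2 := by
  have hc : ContinuousAt (fun δ : V n => φ (y + δ)) 0 :=
    (hφ.comp (by fun_prop : Continuous fun δ : V n => y + δ)).continuousAt
  have h1 : ∀ᶠ δ in 𝓝 (0 : V n), φ (y + δ) < φ y / 2 := by
    apply hc.eventually_lt_const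
    show φ (y + 0) < φ y / 2
    rw [add_zero]
    linarith
  obtain ⟨r, hr, h2⟩ := Metric.eventually_nhds_iff.1 h1
  exact ⟨r, hr, fun δ hδ => (h2 (by rwa [dist_zero_right])).le⟩

theorem t_CONDR : S_CONDR := by
  intro hN hK hH n p a b F hF
  -- (C1)
  have C1 : ∀ e y : V n, e ≠ 0 → Rc a e → y ∈ G e → Cm a b e y → 0 ≤ F.T e e e := by
    intro e y he0 he hG hC
    by_contra hT
    rw [not_le] at hT
    obtain ⟨ε, hε, M, hM⟩ := core hN hK hH a b F hF he0 he hG hC
    obtain ⟨CA, hCA0, hCA⟩ := bound (cA F e) y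
    obtain ⟨CB, hCB0, hCB⟩ := bound (cB F e) y
    obtain ⟨CV, hCV0, hCV⟩ := bound (cval F) y
    obtain ⟨s, hs, δ, hδ, -, hle⟩ := hM (min ε 1) (lt_min hε one_pos) (min_le_left _ _)
      (max (max 1 ((CA + CB + CV + 1) / (-F.T e e e))) (|M| + 1))
    have hs1 : 1 ≤ s := (le_max_left _ _).trans ((le_max_left _ _).trans hs)
    have hs2 : (CA + CB + CV + 1) / (-F.T e e e) ≤ s :=
      (le_max_right _ _).trans ((le_max_left _ _).trans hs)
    have hs3 : |M| + 1 ≤ s := (le_max_right _ _).trans hs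
    have hδ1 : ‖δ‖ ≤ 1 := hδ.le.trans (min_le_right _ _)
    have h1 := hCA δ hδ1
    have h2 := hCB δ hδ1
    have h3 := hCV δ hδ1
    rw [div_le_iff₀ (by linarith)] at hs2
    have hM' := neg_abs_le M
    have hs0 : 0 ≤ s := by linarith
    have hsq : s ≤ s ^ 2 := by nlinarith
    have e1 : s ^ 2 * F.A e (y + δ) ≤ s ^ 2 * CA := mul_le_mul_of_nonneg_left h1 (sq_nonneg s)
    have e2 : s * F.B e (y + δ) ≤ s ^ 2 * CB :=
      (mul_le_mul_of_nonneg_left h2 hs0).trans (mul_le_mul_of_nonneg_right hsq hCB0)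
    have e3 : F.val (y + δ) ≤ s ^ 2 * CV := by
      have : CV ≤ s ^ 2 * CV := by nlinarith
      exact h3.trans this
    have e4 : s ^ 3 * F.T e e e ≤ -(s ^ 2 * (CA + CB + CV + 1)) := by
      have := mul_le_mul_of_nonneg_left hs2 (sq_nonneg s)
      nlinarith
    nlinarith
  -- (C2)
  have C2 : ∀ e y : V n, e ≠ 0 → Rc a e → y ∈ G e → Cm a b e y → F.T e e e = 0 →
      0 ≤ F.A e y := by
    intro e y he0 he hG hC hT
    by_contra hA
    rw [not_le] at hA
    obtain ⟨ε, hε, M, hM⟩ := core hN hK hH a b F hF he0 he hG hC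
    obtain ⟨r, hr, hr'⟩ := near (cA F e) hA
    obtain ⟨CB, hCB0, hCB⟩ := bound (cB F e) y
    obtain ⟨CV, hCV0, hCV⟩ := bound (cval F) y
    obtain ⟨s, hs, δ, hδ, -, hle⟩ := hM (min (min ε r) 1) (lt_min (lt_min hε hr) one_pos)
      ((min_le_left _ _).trans (min_le_left _ _))
      (max (max 1 ((CB + CV + 1) / (-F.A e y / 2))) (|M| + 1))
    have hs1 : 1 ≤ s := (le_max_left _ _).trans ((le_max_left _ _).trans hs)
    have hs2 : (CB + CV + 1) / (-F.A e y / 2) ≤ s :=
      (le_max_right _ _).trans ((le_max_left _ _).trans hs)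
    have hs3 : |M| + 1 ≤ s := (le_max_right _ _).trans hs
    have hδ1 : ‖δ‖ ≤ 1 := hδ.le.trans (min_le_right _ _)
    have hδr : ‖δ‖ < r := hδ.trans_le ((min_le_left _ _).trans (min_le_right _ _))
    have h1 := hr' δ hδr
    have h2 := hCB δ hδ1
    have h3 := hCV δ hδ1
    rw [div_le_iff₀ (by linarith)] at hs2
    have hM' := neg_abs_le M
    have hs0 : 0 ≤ s := by linarith
    have e1 : s ^ 2 * F.A e (y + δ) ≤ s ^ 2 * (F.A e y / 2) :=
      mul_le_mul_of_nonneg_left h1 (sq_nonneg s)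
    have e2 : s * F.B e (y + δ) ≤ s * CB := mul_le_mul_of_nonneg_left h2 hs0
    have e3 : F.val (y + δ) ≤ s * CV := by
      have : CV ≤ s * CV := by nlinarith
      exact h3.trans this
    have e4 : s ^ 2 * (F.A e y / 2) ≤ -(s * (CB + CV + 1)) := by
      have := mul_le_mul_of_nonneg_left hs2 hs0
      nlinarith
    rw [hT, mul_zero, zero_add] at hle
    nlinarith
  intro e y he0 he hG hC
  refine ⟨C1 e y he0 he hG hC, C2 e y he0 he hG hC, ?_⟩
  -- (C3)
  intro hT hA
  by_contra hB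
  rw [not_le] at hB
  have hTH : ∀ v ∈ H e, F.T e e v = 0 := by
    have key : ∀ v ∈ H e, 0 ≤ F.T e e v := by
      intro v hv
      have h1 := C2 e (y + v) he0 he ?_ ?_ hT
      · unfold Cub.A at h1 hA
        rw [map_add] at h1
        linarith
      · intro m hm
        obtain ⟨t, ht⟩ := hG m hm
        exact ⟨t, by rw [dot_add, hv m hm, add_zero, ht]⟩
      · intro i hi
        rw [dot_add, hv (a i) hi, add_zero]
        exact hC i hi
    intro v hv
    have h1 := key v hv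
    have h2 := key (-v) (fun m hm => by
      have : dot m (-v) = -dot m v := by
        have := dot_smul m (-1) v
        rw [neg_one_smul] at this
        rw [this]; ring
      rw [this, hv m hm, neg_zero])
    rw [map_neg] at h2
    linarith
  obtain ⟨ε, hε, M, hM⟩ := core hN hK hH a b F hF he0 he hG hC
  obtain ⟨r, hr, hr'⟩ := near (cB F e) hB
  obtain ⟨CV, hCV0, hCV⟩ := bound (cval F) y
  obtain ⟨s, hs, δ, hδ, hδH, hle⟩ := hM (min (min ε r) 1) (lt_min (lt_min hε hr) one_pos)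
    ((min_le_left _ _).trans (min_le_left _ _))
    (max 1 ((CV + |M| + 1) / (-F.B e y / 2)))
  have hs1 : 1 ≤ s := (le_max_left _ _).trans hs
  have hs2 : (CV + |M| + 1) / (-F.B e y / 2) ≤ s := (le_max_right _ _).trans hs
  have hδ1 : ‖δ‖ ≤ 1 := hδ.le.trans (min_le_right _ _)
  have hδr : ‖δ‖ < r := hδ.trans_le ((min_le_left _ _).trans (min_le_right _ _))
  have h1 := hr' δ hδr
  have h3 := hCV δ hδ1
  rw [div_le_iff₀ (by linarith)] at hs2
  have hM' := neg_abs_le M
  have hs0 : 0 ≤ s := by linarith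
  have hAδ : F.A e (y + δ) = 0 := by
    unfold Cub.A at hA ⊢
    rw [map_add, hTH δ hδH, add_zero]
    exact hA
  have e1 : s * F.B e (y + δ) ≤ s * (F.B e y / 2) := mul_le_mul_of_nonneg_left h1 hs0
  rw [hT, hAδ, mul_zero, mul_zero, zero_add, zero_add] at hle
  nlinarith

end Pool.Agent.X288.TR
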